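import Pool.Agent.Helper34.ZB.ZOC
import Mathlib.Topology.ContinuousMap.StoneWeierstrass
import Mathlib.Topology.MetricSpace.ThickenedIndicator

/-!
Row ZDB of the sheet ZB (MP_7a8f48_an): density of an algebra of functions which generates the
sigma algebra.
-/

set_option linter.unusedSectionVars false

open MeasureTheory Filter Topology Finset
open scoped ComplexConjugate ENNReal NNReal

namespace Pool.Agent.Helper34.ZB

open Pool.Agent.Helper98.TW (BF)
open Pool.Agent.Helper98.ZB (ST_ZDB)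

variable {Y : Type} [MeasurableSpace Y] {ν : Measure Y} [IsProbabilityMeasure ν]
  {𝒜 : Set (Y → ℂ)}

/-- an algebra of bounded functions -/
structure Al (𝒜 : Set (Y → ℂ)) : Prop where
  bf : ∀ f ∈ 𝒜, BF f
  cst : ∀ c : ℂ, (fun _ => c) ∈ 𝒜
  add : ∀ f ∈ 𝒜, ∀ g ∈ 𝒜, (fun y => f y + g y) ∈ 𝒜
  mul : ∀ f ∈ 𝒜, ∀ g ∈ 𝒜, (fun y => f y * g y) ∈ 𝒜
  con : ∀ f ∈ 𝒜, (fun y => conj (f y)) ∈ 𝒜

theorem bf_memLp {f : Y → ℂ} (hf : BF f) : MemLp f 2 ν := by
  obtain ⟨B, hB⟩ := hf.2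
  exact MemLp.of_bound hf.1.aestronglyMeasurable B (Eventually.of_forall hB)

/-- near `𝒜` in the norm of `L²` -/
def Cl (ν : Measure Y) (𝒜 : Set (Y → ℂ)) (G : Y → ℂ) : Prop :=
  ∀ ε : ℝ, 0 < ε → ∃ F ∈ 𝒜, ∫ y, ‖G y - F y‖ ^ 2 ∂ν ≤ ε ^ 2

/-- multipliers -/
def Mu (ν : Measure Y) (𝒜 : Set (Y → ℂ)) (h : Y → ℂ) : Prop :=
  BF h ∧ ∀ F ∈ 𝒜, Cl ν 𝒜 (fun y => h y * F y)

theorem bf_mul {f g : Y → ℂ} (hf : BF f) (hg : BF g) : BF (fun y => f y * g y) := by
  obtain ⟨B, hB⟩ := hf.2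
  obtain ⟨C, hC⟩ := hg.2
  refine ⟨hf.1.mul hg.1, B * C, fun y => ?_⟩
  rw [norm_mul]
  exact mul_le_mul (hB y) (hC y) (norm_nonneg _) ((norm_nonneg _).trans (hB y))

theorem bf_add {f g : Y → ℂ} (hf : BF f) (hg : BF g) : BF (fun y => f y + g y) := by
  obtain ⟨B, hB⟩ := hf.2
  obtain ⟨C, hC⟩ := hg.2
  exact ⟨hf.1.add hg.1, B + C, fun y => (norm_add_le _ _).trans (add_le_add (hB y) (hC y))⟩

theorem cl_of_mem (_A : Al 𝒜) {F : Y → ℂ} (hF : F ∈ 𝒜) : Cl ν 𝒜 F := by
  intro ε hε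
  refine ⟨F, hF, ?_⟩
  simp
  positivity

theorem cl_tri (A : Al 𝒜) {G G' : Y → ℂ} (mG : MemLp G 2 ν) (mG' : MemLp G' 2 ν) {ε : ℝ}
    (hε : 0 < ε) (h : ∫ y, ‖G y - G' y‖ ^ 2 ∂ν ≤ ε ^ 2) (hG' : Cl ν 𝒜 G') :
    ∃ F ∈ 𝒜, ∫ y, ‖G y - F y‖ ^ 2 ∂ν ≤ (ε + ε) ^ 2 := by
  obtain ⟨F, hF, h1⟩ := hG' ε hε
  exact ⟨F, hF, l2_tri mG mG' (bf_memLp (A.bf F hF)) hε hε h h1⟩

theorem cl_mul (A : Al 𝒜) {h G : Y → ℂ} (hh : Mu ν 𝒜 h) (mG : MemLp G 2 ν) (hG : Cl ν 𝒜 G) :
    Cl ν 𝒜 (fun y => h y * G y) := by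
  intro ε hε
  obtain ⟨B, hB⟩ := hh.1.2
  set C : ℝ := max B 1 with hC
  have hC0 : 0 < C := lt_max_of_lt_right one_pos
  have hCB : ∀ y, ‖h y‖ ≤ C := fun y => (hB y).trans (le_max_left _ _)
  obtain ⟨F, hF, h1⟩ := hG (ε / 2 / C) (by positivity)
  have mF : MemLp F 2 ν := bf_memLp (A.bf F hF)
  have mhG : MemLp (fun y => h y * G y) 2 ν := by
    refine MemLp.of_le_mul (c := C) mG (hh.1.1.aestronglyMeasurable.mul mG.1)
      (Eventually.of_forall fun y => ?_)
    rw [norm_mul]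
    exact mul_le_mul_of_nonneg_right (hCB y) (norm_nonneg _)
  have mhF : MemLp (fun y => h y * F y) 2 ν := bf_memLp (bf_mul hh.1 (A.bf F hF))
  have h2 : ∫ y, ‖h y * G y - h y * F y‖ ^ 2 ∂ν ≤ (ε / 2) ^ 2 := by
    have i1 : Integrable (fun y => ‖G y - F y‖ ^ 2) ν := sq_int (mG.sub mF)
    have h3 : ∫ y, ‖h y * G y - h y * F y‖ ^ 2 ∂ν ≤ ∫ y, C ^ 2 * ‖G y - F y‖ ^ 2 ∂ν := by
      refine integral_mono (sq_int (mhG.sub mhF)) (i1.const_mul _) fun y => ?_
      show ‖h y * G y - h y * F y‖ ^ 2 ≤ C ^ 2 * ‖G y - F y‖ ^ 2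
      rw [← mul_sub, norm_mul, mul_pow]
      exact mul_le_mul_of_nonneg_right (pow_le_pow_left₀ (norm_nonneg _) (hCB y) 2)
        (by positivity)
    rw [integral_const_mul] at h3
    refine h3.trans ((mul_le_mul_of_nonneg_left h1 (by positivity)).trans (le_of_eq ?_))
    field_simp
  obtain ⟨F', hF', h4⟩ := cl_tri A mhG mhF (half_pos hε) h2 (hh.2 F hF)
  refine ⟨F', hF', h4.trans (le_of_eq ?_)⟩
  ring

theorem mu_of_mem (A : Al 𝒜) {f : Y → ℂ} (hf : f ∈ 𝒜) : Mu ν 𝒜 f :=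
  ⟨A.bf f hf, fun F hF => cl_of_mem A (A.mul f hf F hF)⟩

theorem mu_mul (A : Al 𝒜) {h h' : Y → ℂ} (hh : Mu ν 𝒜 h) (hh' : Mu ν 𝒜 h') :
    Mu ν 𝒜 (fun y => h y * h' y) := by
  refine ⟨bf_mul hh.1 hh'.1, fun F hF => ?_⟩
  have h1 := cl_mul A hh (bf_memLp (bf_mul hh'.1 (A.bf F hF))) (hh'.2 F hF)
  simpa only [mul_assoc] using h1

theorem cl_add (A : Al 𝒜) {G G' : Y → ℂ} (mG : MemLp G 2 ν) (mG' : MemLp G' 2 ν)
    (hG : Cl ν 𝒜 G) (hG' : Cl ν 𝒜 G') : Cl ν 𝒜 (fun y => G y + G' y) := by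
  intro ε hε
  obtain ⟨F, hF, h1⟩ := hG (ε / 2) (half_pos hε)
  obtain ⟨F', hF', h2⟩ := hG' (ε / 2) (half_pos hε)
  refine ⟨_, A.add F hF F' hF', ?_⟩
  have h3 := l2_add (mG.sub (bf_memLp (A.bf F hF))) (mG'.sub (bf_memLp (A.bf F' hF')))
    (half_pos hε) (half_pos hε) h1 h2
  have h4 : ∀ y, (G - F) y + (G' - F') y = G y + G' y - (F y + F' y) := fun y => by
    simp only [Pi.sub_apply]; ring
  simp only [h4] at h3
  refine h3.trans (le_of_eq ?_)
  ring

theorem mu_add (A : Al 𝒜) {h h' : Y → ℂ} (hh : Mu ν 𝒜 h) (hh' : Mu ν 𝒜 h') :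
    Mu ν 𝒜 (fun y => h y + h' y) := by
  refine ⟨bf_add hh.1 hh'.1, fun F hF => ?_⟩
  have h1 := cl_add A (bf_memLp (bf_mul hh.1 (A.bf F hF))) (bf_memLp (bf_mul hh'.1 (A.bf F hF)))
    (hh.2 F hF) (hh'.2 F hF)
  simpa only [add_mul] using h1

theorem mu_smul (A : Al 𝒜) (c : ℂ) {h : Y → ℂ} (hh : Mu ν 𝒜 h) :
    Mu ν 𝒜 (fun y => c * h y) := mu_mul A (mu_of_mem A (A.cst c)) hh

/-- limits of multipliers -/
theorem mu_lim (A : Al 𝒜) {h : ℕ → Y → ℂ} {g : Y → ℂ} {B : ℝ} (hh : ∀ n, Mu ν 𝒜 (h n))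
    (hB : ∀ n y, ‖h n y‖ ≤ B) (hl : ∀ y, Tendsto (fun n => h n y) atTop (𝓝 (g y))) :
    Mu ν 𝒜 g := by
  have hgB : ∀ y, ‖g y‖ ≤ B := fun y =>
    le_of_tendsto (hl y).norm (Eventually.of_forall fun n => hB n y)
  have hg : BF g := ⟨measurable_of_tendsto_metrizable (fun n => (hh n).1.1)
    (tendsto_pi_nhds.2 hl), B, hgB⟩
  refine ⟨hg, fun F hF ε hε => ?_⟩
  obtain ⟨C, hC⟩ := (A.bf F hF).2
  have h1 : Tendsto (fun n => ∫ y, ‖g y * F y - h n y * F y‖ ^ 2 ∂ν) atTop (𝓝 (∫ _y, (0 : ℝ) ∂ν)) := by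
    apply tendsto_integral_of_dominated_convergence (fun _ => ((B + B) * C) ^ 2)
    · intro n
      exact (((hg.1.mul (A.bf F hF).1).sub ((hh n).1.1.mul (A.bf F hF).1)).norm.pow_const
        2).aestronglyMeasurable
    · exact integrable_const _
    · intro n
      refine Eventually.of_forall fun y => ?_
      rw [Real.norm_of_nonneg (by positivity), ← sub_mul, norm_mul]
      have h2 : ‖g y - h n y‖ ≤ B + B := (norm_sub_le _ _).trans (add_le_add (hgB y) (hB n y))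
      exact pow_le_pow_left₀ (by positivity) (mul_le_mul h2 (hC y) (norm_nonneg _)
        ((norm_nonneg _).trans h2)) 2
    · refine Eventually.of_forall fun y => ?_
      have h2 : Tendsto (fun n => g y * F y - h n y * F y) atTop (𝓝 (g y * F y - g y * F y)) :=
        tendsto_const_nhds.sub ((hl y).mul_const _)
      have h3 := (h2.norm).pow 2
      simpa using h3
  rw [integral_zero] at h1
  obtain ⟨n, hn⟩ := (h1.eventually (eventually_le_nhds (show (0 : ℝ) < (ε / 2) ^ 2 by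
    positivity))).exists
  obtain ⟨F', hF', h4⟩ := cl_tri A (bf_memLp (bf_mul hg (A.bf F hF)))
    (bf_memLp (bf_mul (hh n).1 (A.bf F hF))) (half_pos hε) hn ((hh n).2 F hF)
  refine ⟨F', hF', h4.trans (le_of_eq ?_)⟩
  ring

/-- continuous functions of an element of the algebra -/
theorem mu_cont (A : Al 𝒜) {f : Y → ℂ} (hf : f ∈ 𝒜) {B : ℝ} (hB : ∀ y, ‖f y‖ ≤ B)
    (g : C(Metric.closedBall (0 : ℂ) B, ℂ)) :
    Mu ν 𝒜 (fun y => g ⟨f y, mem_closedBall_zero_iff.2 (hB y)⟩) := by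
  have hcpt : CompactSpace (Metric.closedBall (0 : ℂ) B) :=
    isCompact_iff_compactSpace.mp (isCompact_closedBall _ _)
  set e : Y → Metric.closedBall (0 : ℂ) B := fun y => ⟨f y, mem_closedBall_zero_iff.2 (hB y)⟩
    with he
  let T : StarSubalgebra ℂ C(Metric.closedBall (0 : ℂ) B, ℂ) :=
    { carrier := {g | (fun y => g (e y)) ∈ 𝒜}
      mul_mem' := fun {a b} ha hb => A.mul _ ha _ hb
      one_mem' := A.cst 1
      add_mem' := fun {a b} ha hb => A.add _ ha _ hb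
      zero_mem' := A.cst 0
      algebraMap_mem' := fun c => A.cst c
      star_mem' := fun {a} ha => A.con _ ha }
  have hT : (ContinuousMap.restrict (Metric.closedBall (0 : ℂ) B) (ContinuousMap.id ℂ)) ∈ T :=
    hf
  have hel := ContinuousMap.elemental_id_eq_top (𝕜 := ℂ) (Metric.closedBall (0 : ℂ) B)
  have hle : StarAlgebra.adjoin ℂ
      {ContinuousMap.restrict (Metric.closedBall (0 : ℂ) B) (ContinuousMap.id ℂ)} ≤ T :=
    StarAlgebra.adjoin_le (Set.singleton_subset_iff.2 hT)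
  have hcl : g ∈ T.topologicalClosure := by
    have h1 : g ∈ StarAlgebra.elemental ℂ
        (ContinuousMap.restrict (Metric.closedBall (0 : ℂ) B) (ContinuousMap.id ℂ)) := by
      rw [hel]
      exact StarSubalgebra.mem_top
    exact StarSubalgebra.topologicalClosure_mono hle h1
  have hcl2 : g ∈ closure (T : Set C(Metric.closedBall (0 : ℂ) B, ℂ)) := hcl
  obtain ⟨s, hs, hsl⟩ := mem_closure_iff_seq_limit.1 hcl2
  obtain ⟨C, hC⟩ := (Metric.isBounded_range_of_tendsto _ hsl).exists_norm_le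
  refine mu_lim A (h := fun n y => s n (e y)) (B := C) (fun n => mu_of_mem A (hs n))
    (fun n y => ?_) (fun y => ?_)
  · exact ((s n).norm_coe_le_norm _).trans (hC _ ⟨n, rfl⟩)
  · exact ((continuous_eval_const (e y)).tendsto g).comp hsl

theorem mu_closed (A : Al 𝒜) {f : Y → ℂ} (hf : f ∈ 𝒜) {K : Set ℂ} (hK : IsClosed K) :
    Mu ν 𝒜 ((f ⁻¹' K).indicator fun _ => 1) := by
  obtain ⟨B, hB⟩ := (A.bf f hf).2
  have hpos : ∀ n : ℕ, (0 : ℝ) < 1 / ((n : ℝ) + 1) := fun n => by positivity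
  have h1 := thickenedIndicator_tendsto_indicator_closure (δseq := fun n : ℕ => 1 / ((n : ℝ) + 1))
    hpos tendsto_one_div_add_atTop_nhds_zero_nat K
  rw [tendsto_pi_nhds] at h1
  let g : ℕ → C(Metric.closedBall (0 : ℂ) B, ℂ) := fun n =>
    ⟨fun z => ((thickenedIndicator (hpos n) K (z : ℂ) : ℝ≥0) : ℝ), by
      exact Complex.continuous_ofReal.comp (NNReal.continuous_coe.comp
        ((thickenedIndicator (hpos n) K).continuous.comp continuous_subtype_val))⟩
  refine mu_lim A (h := fun n y => g n ⟨f y, mem_closedBall_zero_iff.2 (hB y)⟩) (B := 1)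
    (fun n => mu_cont A hf hB (g n)) (fun n y => ?_) (fun y => ?_)
  · show ‖(((thickenedIndicator (hpos n) K (f y) : ℝ≥0) : ℝ) : ℂ)‖ ≤ 1
    rw [Complex.norm_real, Real.norm_of_nonneg (NNReal.coe_nonneg _)]
    exact_mod_cast thickenedIndicator_le_one (hpos n) K (f y)
  · have h2 := h1 (f y)
    have h3 : Tendsto (fun n : ℕ =>
        (((thickenedIndicator (hpos n) K (f y) : ℝ≥0) : ℝ) : ℂ)) atTop
        (𝓝 ((((closure K).indicator (fun _ => (1 : ℝ≥0)) (f y) : ℝ≥0) : ℝ) : ℂ)) :=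
      (Complex.continuous_ofReal.tendsto _).comp ((NNReal.continuous_coe.tendsto _).comp h2)
    have h4 : (f ⁻¹' K).indicator (fun _ => (1 : ℂ)) y =
        ((((closure K).indicator (fun _ => (1 : ℝ≥0)) (f y) : ℝ≥0) : ℝ) : ℂ) := by
      rw [hK.closure_eq]
      by_cases h : f y ∈ K
      · rw [Set.indicator_of_mem (show y ∈ f ⁻¹' K from h), Set.indicator_of_mem h]
        simp
      · rw [Set.indicator_of_notMem (show y ∉ f ⁻¹' K from h), Set.indicator_of_notMem h]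
        simp
    rw [h4]
    exact h3

/-- the sigma algebra of the sets whose indicator is a multiplier -/
@[reducible] def msp (ν : Measure Y) [IsProbabilityMeasure ν] (A : Al 𝒜) : MeasurableSpace Y where
  MeasurableSet' s := Mu ν 𝒜 (s.indicator fun _ => 1)
  measurableSet_empty := by
    have : (∅ : Set Y).indicator (fun _ => (1 : ℂ)) = fun _ => 0 := by
      funext y; simp
    rw [this]
    exact mu_of_mem A (A.cst 0)
  measurableSet_compl s hs := by
    have : sᶜ.indicator (fun _ => (1 : ℂ)) = fun y => 1 + (-1) * s.indicator (fun _ => 1) y := by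
      funext y
      by_cases h : y ∈ s
      · rw [Set.indicator_of_mem h, Set.indicator_of_notMem (by simpa using h)]
        ring
      · rw [Set.indicator_of_notMem h, Set.indicator_of_mem (by simpa using h)]
        ring
    rw [this]
    exact mu_add A (mu_of_mem A (A.cst 1)) (mu_smul A _ hs)
  measurableSet_iUnion f hf := by
    -- the finite unions
    have h1 : ∀ n : ℕ, Mu ν 𝒜 ((⋂ i ∈ range n, (f i)ᶜ).indicator fun _ => 1) := by
      intro n
      induction n with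
      | zero =>
        have : (⋂ i ∈ range 0, (f i)ᶜ).indicator (fun _ => (1 : ℂ)) = fun _ => 1 := by
          funext y; simp
        rw [this]
        exact mu_of_mem A (A.cst 1)
      | succ n ih =>
        have : (⋂ i ∈ range (n + 1), (f i)ᶜ).indicator (fun _ => (1 : ℂ)) = fun y =>
            (⋂ i ∈ range n, (f i)ᶜ).indicator (fun _ => 1) y *
              (1 + (-1) * (f n).indicator (fun _ => 1) y) := by
          funext y
          have e1 : (⋂ i ∈ range (n + 1), (f i)ᶜ) = (⋂ i ∈ range n, (f i)ᶜ) ∩ (f n)ᶜ := by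
            ext z
            simp only [Finset.mem_range, Set.mem_iInter, Set.mem_inter_iff, Set.mem_compl_iff]
            constructor
            · intro h
              exact ⟨fun i hi => h i (by omega), h n (by omega)⟩
            · rintro ⟨h, h'⟩ i hi
              rcases Nat.lt_succ_iff_lt_or_eq.1 hi with h2 | h2
              · exact h i h2
              · rw [h2]; exact h'
          rw [e1]
          by_cases ha : y ∈ (⋂ i ∈ range n, (f i)ᶜ)
          · by_cases hb : y ∈ f n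
            · rw [Set.indicator_of_notMem (fun h => h.2 hb), Set.indicator_of_mem hb]
              ring
            · rw [Set.indicator_of_mem
                (show y ∈ (⋂ i ∈ range n, (f i)ᶜ) ∩ (f n)ᶜ from ⟨ha, hb⟩), Set.indicator_of_mem ha,
                Set.indicator_of_notMem hb]
              ring
          · rw [Set.indicator_of_notMem (fun h => ha h.1), Set.indicator_of_notMem ha]
            ring
        rw [this]
        exact mu_mul A ih (mu_add A (mu_of_mem A (A.cst 1)) (mu_smul A _ (hf n)))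
    have h2 : Mu ν 𝒜 ((⋂ i, (f i)ᶜ).indicator fun _ => 1) := by
      refine mu_lim A (B := 1) h1 (fun n y => ?_) (fun y => ?_)
      · by_cases h : y ∈ (⋂ i ∈ range n, (f i)ᶜ)
        · rw [Set.indicator_of_mem h]; simp
        · rw [Set.indicator_of_notMem h]; simp
      · by_cases h : y ∈ (⋂ i, (f i)ᶜ)
        · rw [Set.indicator_of_mem h]
          refine tendsto_const_nhds.congr fun n => ?_
          rw [Set.indicator_of_mem]
          simp only [Set.mem_iInter] at h ⊢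
          exact fun i _ => h i
        · rw [Set.indicator_of_notMem h]
          obtain ⟨i, hi⟩ : ∃ i, y ∈ f i := by
            by_contra hc
            apply h
            simp only [Set.mem_iInter, Set.mem_compl_iff]
            exact fun i hi => hc ⟨i, hi⟩
          refine tendsto_const_nhds.congr' ?_
          filter_upwards [eventually_gt_atTop i] with n hn
          rw [Set.indicator_of_notMem]
          simp only [Finset.mem_range, Set.mem_iInter, Set.mem_compl_iff]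
          exact fun h3 => h3 i hn hi
    have : (⋃ i, f i).indicator (fun _ => (1 : ℂ)) =
        fun y => 1 + (-1) * (⋂ i, (f i)ᶜ).indicator (fun _ => 1) y := by
      funext y
      have e1 : (⋂ i, (f i)ᶜ) = (⋃ i, f i)ᶜ := by rw [Set.compl_iUnion]
      rw [e1]
      by_cases h : y ∈ (⋃ i, f i)
      · rw [Set.indicator_of_mem h,
          Set.indicator_of_notMem (fun h' : y ∈ (⋃ i, f i)ᶜ => h' h)]
        ring
      · rw [Set.indicator_of_notMem h, Set.indicator_of_mem (show y ∈ (⋃ i, f i)ᶜ from h)]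
        ring
    rw [this]
    exact mu_add A (mu_of_mem A (A.cst 1)) (mu_smul A _ h2)

theorem comap_le (A : Al 𝒜) {f : Y → ℂ} (hf : f ∈ 𝒜) :
    MeasurableSpace.comap f inferInstance ≤ msp ν A := by
  have h1 : (inferInstance : MeasurableSpace ℂ) = MeasurableSpace.generateFrom {s | IsClosed s} := by
    rw [← borel_eq_generateFrom_isClosed]
    exact BorelSpace.measurable_eq
  rw [← measurable_iff_comap_le]
  refine @measurable_of_isClosed _ _ _ _ _ (msp ν A) f fun s hs => ?_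
  exact mu_closed A hf hs

/-- **ZDB**. -/
theorem st_ZDB : ST_ZDB := by
  intro Y _ ν _ 𝒜 hbf hcst hadd hmul hcon hgen G mG ε hε
  have A : Al 𝒜 := ⟨hbf, hcst, hadd, hmul, hcon⟩
  have hle : (⨆ f ∈ 𝒜, MeasurableSpace.comap f inferInstance) ≤ msp ν A :=
    iSup₂_le fun f hf => comap_le A hf
  have hind : ∀ s : Set Y, MeasurableSet s → ∀ c : ℂ, Cl ν 𝒜 (s.indicator fun _ => c) := by
    intro s hs c
    obtain ⟨t, ht, hst⟩ := hgen s hs
    have h1 : Mu ν 𝒜 (t.indicator fun _ => 1) := hle t ht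
    have h2 := h1.2 (fun _ => c) (A.cst c)
    intro δ hδ
    obtain ⟨F, hF, h3⟩ := h2 δ hδ
    refine ⟨F, hF, ?_⟩
    have h4 : ∫ y, ‖s.indicator (fun _ => c) y - F y‖ ^ 2 ∂ν =
        ∫ y, ‖t.indicator (fun _ => 1) y * c - F y‖ ^ 2 ∂ν := by
      apply integral_congr_ae
      filter_upwards [hst] with y hy
      have h5 : (y ∈ s) = (y ∈ t) := hy
      by_cases h : y ∈ t
      · rw [Set.indicator_of_mem h, Set.indicator_of_mem (h5 ▸ h), one_mul]
      · rw [Set.indicator_of_notMem h, Set.indicator_of_notMem (h5 ▸ h), zero_mul]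
    rw [h4]
    exact h3
  -- conversion
  have conv : ∀ f : Y → ℂ, MemLp f 2 ν → ∀ r : ℝ, 0 ≤ r →
      (∫ y, ‖f y‖ ^ 2 ∂ν ≤ r ^ 2 ↔ eLpNorm f 2 ν ≤ ENNReal.ofReal r) := by
    intro f hf r hr
    rw [hf.eLpNorm_eq_integral_rpow_norm (by norm_num) (by norm_num),
      ENNReal.ofReal_le_ofReal_iff hr]
    have e1 : ∀ y, ‖f y‖ ^ (2 : ℝ≥0∞).toReal = ‖f y‖ ^ 2 := by
      intro y
      rw [← Real.rpow_natCast]
      norm_num
    simp only [e1]
    have e2 : 0 ≤ ∫ y, ‖f y‖ ^ 2 ∂ν := integral_nonneg fun y => by positivity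
    have e3 : (∫ y, ‖f y‖ ^ 2 ∂ν) ^ ((2 : ℝ≥0∞).toReal)⁻¹ = √(∫ y, ‖f y‖ ^ 2 ∂ν) := by
      rw [Real.sqrt_eq_rpow]
      norm_num
    rw [e3, Real.sqrt_le_left hr]
  obtain ⟨F, hF1, hF2⟩ := mG.induction_dense (by norm_num) (fun g => g ∈ 𝒜)
    (fun c s hs _ δ hδ => by
      obtain ⟨r, hr0, hr⟩ : ∃ r : ℝ, 0 < r ∧ ENNReal.ofReal r ≤ δ := by
        rcases eq_or_ne δ ⊤ with h | h
        · exact ⟨1, one_pos, by rw [h]; exact le_top⟩
        · exact ⟨δ.toReal, ENNReal.toReal_pos hδ h, by rw [ENNReal.ofReal_toReal h]⟩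
      obtain ⟨F, hF, h3⟩ := hind s hs c r hr0
      refine ⟨F, ?_, hF⟩
      have mF : MemLp F 2 ν := bf_memLp (A.bf F hF)
      have ms : MemLp (s.indicator fun _ => c) 2 ν := by
        refine MemLp.indicator hs (memLp_const c)
      refine le_trans ?_ hr
      refine (conv _ (mF.sub ms) r hr0.le).1 ?_
      simp only [Pi.sub_apply]
      rw [l2_symm]
      exact h3)
    (fun f g hf hg => A.add f hf g hg) (fun f hf => (A.bf f hf).1.aestronglyMeasurable)
    (ε := ENNReal.ofReal (√ε)) (by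
      simp only [ne_eq, ENNReal.ofReal_eq_zero, not_le]
      positivity)
  refine ⟨F, hF2, ?_⟩
  have h1 := (conv _ (mG.sub (bf_memLp (A.bf F hF2))) (√ε) (Real.sqrt_nonneg _)).2 hF1
  rw [Real.sq_sqrt hε.le] at h1
  exact h1

end Pool.Agent.Helper34.ZB
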