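import Pool.Agent.Helper98.ZB.Stmts
import Pool.Agent.Helper59.ZA.ZUE
import Mathlib.MeasureTheory.Function.ContinuousMapDense

/-!
Row ZOC of the sheet ZB (MP_7a8f48_an): functions orthogonal to the Moebius function form a
closed subspace.
-/

set_option linter.unusedSectionVars false

open MeasureTheory Filter Topology Finset
open scoped ComplexConjugate ENNReal BoundedContinuousFunction

namespace Pool.Agent.Helper34.ZB

open Pool.Agent.Helper98.ZA (Un ST_ZUE)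
open Pool.Agent.Helper98.ZB (Oe Or ST_ZOC)
open Pool.Agent.Helper16.MD (MS)

/-! ### the norm of `L²` -/

section gen

variable {Ω : Type} [MeasurableSpace Ω] {μ : Measure Ω} [IsProbabilityMeasure μ]

theorem sq_int {f : Ω → ℂ} (hf : MemLp f 2 μ) : Integrable (fun x => ‖f x‖ ^ 2) μ :=
  hf.integrable_norm_pow (by norm_num)

/-- Minkowski's inequality -/
theorem l2_add {f g : Ω → ℂ} (hf : MemLp f 2 μ) (hg : MemLp g 2 μ) {s t : ℝ} (hs : 0 < s)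
    (ht : 0 < t) (h1 : ∫ x, ‖f x‖ ^ 2 ∂μ ≤ s ^ 2) (h2 : ∫ x, ‖g x‖ ^ 2 ∂μ ≤ t ^ 2) :
    ∫ x, ‖f x + g x‖ ^ 2 ∂μ ≤ (s + t) ^ 2 := by
  have i1 := (sq_int hf).const_mul (1 + t / s)
  have i2 := (sq_int hg).const_mul (1 + s / t)
  have h3 : ∫ x, ‖f x + g x‖ ^ 2 ∂μ ≤
      ∫ x, ((1 + t / s) * ‖f x‖ ^ 2 + (1 + s / t) * ‖g x‖ ^ 2) ∂μ := by
    refine integral_mono (sq_int (hf.add hg)) (i1.add i2) fun x => ?_
    have h4 : ‖f x + g x‖ ≤ ‖f x‖ + ‖g x‖ := norm_add_le _ _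
    have h5 : ‖f x + g x‖ ^ 2 ≤ (‖f x‖ + ‖g x‖) ^ 2 :=
      pow_le_pow_left₀ (norm_nonneg _) h4 2
    have h6 : (1 + t / s) * ‖f x‖ ^ 2 + (1 + s / t) * ‖g x‖ ^ 2 - (‖f x‖ + ‖g x‖) ^ 2 =
        (t * ‖f x‖ - s * ‖g x‖) ^ 2 / (s * t) := by
      field_simp
      ring
    have h7 : 0 ≤ (t * ‖f x‖ - s * ‖g x‖) ^ 2 / (s * t) := by positivity
    show ‖f x + g x‖ ^ 2 ≤ (1 + t / s) * ‖f x‖ ^ 2 + (1 + s / t) * ‖g x‖ ^ 2
    linarith
  rw [integral_add i1 i2, integral_const_mul, integral_const_mul] at h3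
  have h4 : (1 + t / s) * ∫ x, ‖f x‖ ^ 2 ∂μ ≤ (1 + t / s) * s ^ 2 :=
    mul_le_mul_of_nonneg_left h1 (by positivity)
  have h5 : (1 + s / t) * ∫ x, ‖g x‖ ^ 2 ∂μ ≤ (1 + s / t) * t ^ 2 :=
    mul_le_mul_of_nonneg_left h2 (by positivity)
  have h6 : (1 + t / s) * s ^ 2 + (1 + s / t) * t ^ 2 = (s + t) ^ 2 := by
    field_simp
    ring
  linarith

theorem l2_symm {f g : Ω → ℂ} : ∫ x, ‖f x - g x‖ ^ 2 ∂μ = ∫ x, ‖g x - f x‖ ^ 2 ∂μ := by
  congr 1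
  funext x
  rw [norm_sub_rev]

theorem l2_tri {f g h : Ω → ℂ} (hf : MemLp f 2 μ) (hg : MemLp g 2 μ) (hh : MemLp h 2 μ)
    {s t : ℝ} (hs : 0 < s) (ht : 0 < t) (h1 : ∫ x, ‖f x - g x‖ ^ 2 ∂μ ≤ s ^ 2)
    (h2 : ∫ x, ‖g x - h x‖ ^ 2 ∂μ ≤ t ^ 2) : ∫ x, ‖f x - h x‖ ^ 2 ∂μ ≤ (s + t) ^ 2 := by
  have h3 := l2_add (hf.sub hg) (hg.sub hh) hs ht h1 h2
  have h4 : ∀ x, (f - g) x + (g - h) x = f x - h x := fun x => by
    simp only [Pi.sub_apply]; ring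
  simpa only [h4] using h3

/-- the mean is at most the quadratic mean -/
theorem l1_of_l2 {h : Ω → ℂ} (hh : MemLp h 2 μ) {t : ℝ} (ht : 0 ≤ t)
    (h2 : ∫ x, ‖h x‖ ^ 2 ∂μ ≤ t ^ 2) : ∫ x, ‖h x‖ ∂μ ≤ t := by
  have i1 : Integrable (fun x => ‖h x‖ ^ 2) μ := sq_int hh
  have i2 : Integrable (fun x => ‖h x‖) μ := (hh.integrable (by norm_num)).norm
  set c := ∫ x, ‖h x‖ ∂μ with hc
  have hc0 : 0 ≤ c := integral_nonneg fun x => norm_nonneg _
  have h3 : 0 ≤ ∫ x, (‖h x‖ - c) ^ 2 ∂μ := integral_nonneg fun x => sq_nonneg _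
  have h4 : ∫ x, (‖h x‖ - c) ^ 2 ∂μ = ∫ x, ‖h x‖ ^ 2 ∂μ - c ^ 2 := by
    have h5 : ∀ x, (‖h x‖ - c) ^ 2 = ‖h x‖ ^ 2 - (2 * c * ‖h x‖ - c ^ 2) := fun x => by ring
    have i3 : Integrable (fun x => 2 * c * ‖h x‖) μ := i2.const_mul (2 * c)
    have i4 : Integrable (fun x => 2 * c * ‖h x‖ - c ^ 2) μ := i3.sub (integrable_const _)
    simp only [h5]
    rw [integral_sub i1 i4, integral_sub i3 (integrable_const _), integral_const_mul, ← hc]
    simp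
    ring
  rw [h4] at h3
  have h5 : c ^ 2 ≤ t ^ 2 := by linarith
  exact (pow_le_pow_iff_left₀ hc0 ht (by norm_num)).1 h5

end gen

theorem ms_norm_le (a : ℕ → ℂ) (N : ℕ) : ‖MS a N‖ ≤ ∑ n ∈ Icc 1 N, ‖a n‖ := by
  unfold MS
  refine (norm_sum_le _ _).trans (Finset.sum_le_sum fun n _ => ?_)
  rw [norm_mul]
  have h1 : ‖((ArithmeticFunction.moebius n : ℤ) : ℂ)‖ ≤ 1 := by
    rw [Complex.norm_intCast]
    exact_mod_cast ArithmeticFunction.abs_moebius_le_one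
  nlinarith [norm_nonneg (a n)]

theorem ms_add (a b : ℕ → ℂ) (N : ℕ) : MS (fun n => a n + b n) N = MS a N + MS b N := by
  unfold MS
  rw [← Finset.sum_add_distrib]
  exact Finset.sum_congr rfl fun n _ => by ring

theorem ms_smul (c : ℂ) (a : ℕ → ℂ) (N : ℕ) : MS (fun n => c * a n) N = c * MS a N := by
  unfold MS
  rw [Finset.mul_sum]
  exact Finset.sum_congr rfl fun n _ => by ring

section main

variable {Y : Type} [MetricSpace Y] [CompactSpace Y] [MeasurableSpace Y] [BorelSpace Y]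
  {ν : Measure Y} [IsProbabilityMeasure ν] {S : Y → Y}

theorem memLp_cont (H : C(Y, ℂ)) : MemLp (fun y => H y) 2 ν := by
  obtain ⟨B, hB⟩ := isCompact_univ.exists_bound_of_continuousOn H.continuous.continuousOn
  exact MemLp.of_bound H.continuous.aestronglyMeasurable B
    (Eventually.of_forall fun y => hB y (Set.mem_univ y))

/-- density of the continuous functions -/
theorem dense {G : Y → ℂ} (hG : MemLp G 2 ν) {ε : ℝ} (hε : 0 < ε) :
    ∃ H : C(Y, ℂ), ∫ y, ‖H y - G y‖ ^ 2 ∂ν ≤ ε := by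
  have hG' : MemLp G (ENNReal.ofReal 2) ν := by
    have : ENNReal.ofReal 2 = 2 := by norm_num
    rw [this]
    exact hG
  obtain ⟨g, hg, -⟩ := hG'.exists_boundedContinuous_integral_rpow_sub_le (by norm_num) hε
  refine ⟨g.toContinuousMap, ?_⟩
  rw [l2_symm]
  have h1 : ∀ y, ‖G y - g.toContinuousMap y‖ ^ 2 = ‖G y - g y‖ ^ (2 : ℝ) := by
    intro y
    rw [← Real.rpow_natCast]
    norm_num
  simpa only [h1] using hg

/-- averages of the absolute values -/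
theorem orb (hS : Continuous S) (hU : Un S ν) (H : C(Y, ℂ)) {t : ℝ}
    (ht : ∫ y, ‖H y‖ ∂ν < t) (y : Y) :
    ∀ᶠ N : ℕ in atTop, ‖MS (fun n => H (S^[n] y)) N‖ ≤ t * N := by
  have h := (Pool.Agent.Helper59.ZA.st_ZUE Y ν S hS hU
    ⟨fun y => ‖H y‖, H.continuous.norm⟩ y).2
  have h1 : ∀ᶠ N : ℕ in atTop, (∑ n ∈ Icc 1 N, ‖H (S^[n] y)‖) / (N : ℝ) < t :=
    h.eventually (eventually_lt_nhds ht)
  filter_upwards [h1, eventually_gt_atTop 0] with N hN hN0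
  have hN1 : (0 : ℝ) < N := by exact_mod_cast hN0
  rw [div_lt_iff₀ hN1] at hN
  exact (ms_norm_le _ N).trans hN.le

/-- comparison of two continuous functions -/
theorem comp (hS : Continuous S) (hU : Un S ν) (H H' : C(Y, ℂ)) {t η₁ η : ℝ} (ht : 0 ≤ t)
    (h2 : ∫ y, ‖H y - H' y‖ ^ 2 ∂ν ≤ t ^ 2) (y : Y)
    (h' : ∀ᶠ N : ℕ in atTop, ‖MS (fun n => H' (S^[n] y)) N‖ ≤ η₁ * N) (hη : η₁ + t < η) :
    ∀ᶠ N : ℕ in atTop, ‖MS (fun n => H (S^[n] y)) N‖ ≤ η * N := by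
  have h3 : ∫ y, ‖(H - H') y‖ ∂ν ≤ t := by
    refine l1_of_l2 (memLp_cont (H - H')) ht ?_
    simpa only [ContinuousMap.sub_apply] using h2
  have h4 : ∫ y, ‖(H - H') y‖ ∂ν < η - η₁ := by linarith
  filter_upwards [h', orb hS hU (H - H') h4 y] with N hN1 hN2
  have h5 : MS (fun n => H (S^[n] y)) N =
      MS (fun n => H' (S^[n] y)) N + MS (fun n => (H - H') (S^[n] y)) N := by
    rw [← ms_add]
    congr 1
    funext n
    simp
  rw [h5]
  refine (norm_add_le _ _).trans ?_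
  linarith

theorem or_congr {G G' : Y → ℂ} (h : G =ᵐ[ν] G') (hG : Or ν S G) : Or ν S G' := by
  intro η hη
  obtain ⟨δ, hδ, hH⟩ := hG η hη
  refine ⟨δ, hδ, fun H h1 => hH H ?_⟩
  have h2 : ∫ y, ‖H y - G y‖ ^ 2 ∂ν = ∫ y, ‖H y - G' y‖ ^ 2 ∂ν := by
    apply integral_congr_ae
    filter_upwards [h] with y hy
    rw [hy]
  rw [h2]
  exact h1

theorem or_add {G G' : Y → ℂ} (mG : MemLp G 2 ν) (mG' : MemLp G' 2 ν) (hG : Or ν S G) (hG' : Or ν S G') :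
    Or ν S (fun y => G y + G' y) := by
  intro η hη
  obtain ⟨δ₁, hδ₁, h1⟩ := hG (η / 2) (by positivity)
  obtain ⟨δ₂, hδ₂, h2⟩ := hG' (η / 2) (by positivity)
  set s : ℝ := min (√δ₁) (√δ₂ / 2) with hs
  have hs0 : 0 < s := lt_min (Real.sqrt_pos.2 hδ₁) (by positivity)
  have hs1 : s ^ 2 ≤ δ₁ := by
    have h3 : s ^ 2 ≤ (√δ₁) ^ 2 := pow_le_pow_left₀ hs0.le (min_le_left _ _) 2
    rwa [Real.sq_sqrt hδ₁.le] at h3
  have hs2 : (s + s) ^ 2 ≤ δ₂ := by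
    have h4 : s ≤ √δ₂ / 2 := min_le_right _ _
    have h3 : (s + s) ^ 2 ≤ (√δ₂) ^ 2 := pow_le_pow_left₀ (by positivity) (by linarith) 2
    rwa [Real.sq_sqrt hδ₂.le] at h3
  refine ⟨s ^ 2, by positivity, fun H hH y => ?_⟩
  obtain ⟨H₁, hH₁⟩ := dense mG (show 0 < s ^ 2 by positivity)
  have e1 := h1 H₁ (hH₁.trans hs1) y
  have hH₂ : ∫ y, ‖G y - H₁ y‖ ^ 2 ∂ν ≤ s ^ 2 := by
    rw [l2_symm]
    exact hH₁
  have e2 := h2 (H - H₁) (by
    refine le_trans ?_ hs2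
    have h3 : ∫ y, ‖(H y - (G y + G' y)) + (G y - H₁ y)‖ ^ 2 ∂ν ≤ (s + s) ^ 2 :=
      l2_add ((memLp_cont H).sub (mG.add mG')) (mG.sub (memLp_cont H₁)) hs0 hs0 hH hH₂
    have h4 : ∀ y, (H y - (G y + G' y)) + (G y - H₁ y) = (H - H₁) y - G' y := fun y => by
      simp only [ContinuousMap.sub_apply]; ring
    simpa only [h4] using h3) y
  filter_upwards [e1, e2] with N hN1 hN2
  have h5 : MS (fun n => H (S^[n] y)) N =
      MS (fun n => H₁ (S^[n] y)) N + MS (fun n => (H - H₁) (S^[n] y)) N := by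
    rw [← ms_add]
    congr 1
    funext n
    simp
  rw [h5]
  refine (norm_add_le _ _).trans ?_
  linarith

theorem or_smul (hS : Continuous S) (hU : Un S ν) (c : ℂ) {G : Y → ℂ}
    (hG : Or ν S G) : Or ν S (fun y => c * G y) := by
  intro η hη
  rcases eq_or_ne c 0 with hc | hc
  · refine ⟨(η / 2) ^ 2, by positivity, fun H hH y => ?_⟩
    have h1 : ∫ y, ‖H y‖ ∂ν ≤ η / 2 := by
      refine l1_of_l2 (memLp_cont H) (by positivity) ?_
      simpa only [hc, zero_mul, sub_zero] using hH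
    exact orb hS hU H (by linarith) y
  · have hc0 : 0 < ‖c‖ := norm_pos_iff.2 hc
    obtain ⟨δ, hδ, h1⟩ := hG (η / ‖c‖) (by positivity)
    refine ⟨δ * ‖c‖ ^ 2, by positivity, fun H hH y => ?_⟩
    have h2 := h1 (c⁻¹ • H) (by
      have h3 : ∀ y, ‖(c⁻¹ • H) y - G y‖ ^ 2 = (‖c‖ ^ 2)⁻¹ * ‖H y - c * G y‖ ^ 2 := by
        intro y
        have h4 : (c⁻¹ • H) y - G y = c⁻¹ * (H y - c * G y) := by
          rw [ContinuousMap.smul_apply, smul_eq_mul]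
          field_simp
        rw [h4, norm_mul, mul_pow, norm_inv, inv_pow]
      simp only [h3]
      rw [integral_const_mul]
      have h5 : (‖c‖ ^ 2)⁻¹ * ∫ y, ‖H y - c * G y‖ ^ 2 ∂ν ≤ (‖c‖ ^ 2)⁻¹ * (δ * ‖c‖ ^ 2) :=
        mul_le_mul_of_nonneg_left hH (by positivity)
      refine h5.trans (le_of_eq ?_)
      field_simp) y
    filter_upwards [h2] with N hN
    have h5 : MS (fun n => H (S^[n] y)) N = c * MS (fun n => (c⁻¹ • H) (S^[n] y)) N := by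
      rw [← ms_smul]
      congr 1
      funext n
      rw [ContinuousMap.smul_apply, smul_eq_mul]
      field_simp
    rw [h5, norm_mul]
    calc ‖c‖ * ‖MS (fun n => (c⁻¹ • H) (S^[n] y)) N‖ ≤ ‖c‖ * (η / ‖c‖ * N) :=
          mul_le_mul_of_nonneg_left hN hc0.le
      _ = η * N := by field_simp

theorem oe_close (hS : Continuous S) (hU : Un S ν) {G G' : Y → ℂ} {η : ℝ} (hη : 0 < η)
    (mG : MemLp G 2 ν) (mG' : MemLp G' 2 ν) (h : Oe ν S G' (η / 2))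
    (hGG : ∫ y, ‖G y - G' y‖ ^ 2 ∂ν ≤ (η / 8) ^ 2) : Oe ν S G η := by
  obtain ⟨δ, hδ, h1⟩ := h
  refine ⟨(η / 8) ^ 2, by positivity, fun H hH y => ?_⟩
  obtain ⟨H', hH'⟩ := dense mG' (show 0 < min δ ((η / 16) ^ 2) from
    lt_min hδ (by positivity))
  have e1 := h1 H' (hH'.trans (min_le_left _ _)) y
  have e2 : ∫ y, ‖H y - G' y‖ ^ 2 ∂ν ≤ (η / 8 + η / 8) ^ 2 :=
    l2_tri (memLp_cont H) mG mG' (by positivity) (by positivity) hH hGG
  have e3 : ∫ y, ‖G' y - H' y‖ ^ 2 ∂ν ≤ (η / 16) ^ 2 := by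
    rw [l2_symm]
    exact hH'.trans (min_le_right _ _)
  have e4 : ∫ y, ‖H y - H' y‖ ^ 2 ∂ν ≤ (η / 8 + η / 8 + η / 16) ^ 2 :=
    l2_tri (memLp_cont H) mG' (memLp_cont H') (by positivity) (by positivity) e2 e3
  exact comp hS hU H H' (by positivity) e4 y e1 (by linarith)

end main

/-- **ZOC**. -/
theorem st_ZOC : ST_ZOC := by
  intro Y _ _ _ _ ν _ S hS hU
  refine ⟨fun G G' h hG => or_congr h hG, fun G G' mG mG' hG hG' => or_add mG mG' hG hG',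
    fun c G _ hG => or_smul hS hU c hG, fun G mG h η hη => ?_,
    fun G G' η hη mG mG' h hGG => oe_close hS hU hη mG mG' h hGG, fun F hF y => ?_⟩
  · obtain ⟨G', mG', hG', hGG⟩ := h ((η / 8) ^ 2) (by positivity)
    exact oe_close hS hU hη mG mG' (hG' (η / 2) (by positivity)) hGG
  · rw [Metric.tendsto_atTop]
    intro ε hε
    obtain ⟨δ, hδ, h1⟩ := hF (ε / 2) (by positivity)
    have h2 := h1 F (by simpa using hδ.le) y
    obtain ⟨N₀, hN₀⟩ := eventually_atTop.1 h2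
    refine ⟨N₀ + 1, fun N hN => ?_⟩
    have h3 := hN₀ N (by omega)
    have hN1 : (0 : ℝ) < N := by
      have : 0 < N := by omega
      exact_mod_cast this
    rw [dist_zero_right, norm_div, Complex.norm_natCast, div_lt_iff₀ hN1]
    nlinarith

end Pool.Agent.Helper34.ZB
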