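import Pool.Agent.Helper34.ZB.ZOC
import Pool.Agent.Helper34.ZA.ZCO
import Pool.Agent.Helper49.ZA.ZAC
import Pool.Agent.Helper73.ZA.ZAP
import Pool.Agent.Helper98.ZA.ZMN

/-!
Row ZOK of the sheet ZB (MP_7a8f48_an): functions with small correlations.
-/

set_option linter.unusedSectionVars false

open MeasureTheory Filter Topology Finset
open scoped ComplexConjugate

namespace Pool.Agent.Helper34.ZB

open Pool.Agent.Helper98.ZA (Un mp_fst mp_snd int_le_of_le corr_close)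
open Pool.Agent.Helper98.ZB (Oe ST_ZOK ST_ZBK)
open Pool.Agent.Helper16.MD (MS)

/-- correlations of bounded functions which are close -/
theorem corr_close_b {Ω : Type} [MeasurableSpace Ω] {κ : Measure (Ω × Ω)}
    [IsProbabilityMeasure κ] {G G' : Ω → ℂ} (hG : Measurable G) (hG' : Measurable G') {b : ℝ}
    (hb0 : 0 < b) (hb : ∀ x, ‖G x‖ ≤ b) (hb' : ∀ x, ‖G' x‖ ≤ b) {t : ℝ} (ht : 0 ≤ t)
    (h1 : ∫ x, ‖G x - G' x‖ ^ 2 ∂(κ.map Prod.fst) ≤ t ^ 2)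
    (h2 : ∫ x, ‖G x - G' x‖ ^ 2 ∂(κ.map Prod.snd) ≤ t ^ 2) :
    ‖∫ z, G' z.1 * conj (G' z.2) ∂κ‖ ≤ ‖∫ z, G z.1 * conj (G z.2) ∂κ‖ + 2 * b * t := by
  have nb : ‖((b⁻¹ : ℝ) : ℂ)‖ = b⁻¹ := by
    rw [Complex.norm_real, Real.norm_of_nonneg (by positivity)]
  have sc : ∀ {F : Ω → ℂ}, (∀ x, ‖F x‖ ≤ b) → ∀ x, ‖((b⁻¹ : ℝ) : ℂ) * F x‖ ≤ 1 := by
    intro F hF x
    rw [norm_mul, nb, inv_mul_le_iff₀ hb0, mul_one]
    exact hF x
  have dist : ∀ ρ : Measure Ω, ∫ x, ‖G x - G' x‖ ^ 2 ∂ρ ≤ t ^ 2 →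
      ∫ x, ‖((b⁻¹ : ℝ) : ℂ) * G x - ((b⁻¹ : ℝ) : ℂ) * G' x‖ ^ 2 ∂ρ ≤ (b⁻¹ * t) ^ 2 := by
    intro ρ h
    have e : ∀ x, ‖((b⁻¹ : ℝ) : ℂ) * G x - ((b⁻¹ : ℝ) : ℂ) * G' x‖ ^ 2 =
        b⁻¹ ^ 2 * ‖G x - G' x‖ ^ 2 := by
      intro x
      rw [← mul_sub, norm_mul, nb, mul_pow]
    simp only [e]
    rw [integral_const_mul, mul_pow]
    exact mul_le_mul_of_nonneg_left h (by positivity)
  have corr : ∀ F : Ω → ℂ, ‖∫ z, (((b⁻¹ : ℝ) : ℂ) * F z.1) * conj (((b⁻¹ : ℝ) : ℂ) * F z.2) ∂κ‖ =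
      b⁻¹ ^ 2 * ‖∫ z, F z.1 * conj (F z.2) ∂κ‖ := by
    intro F
    have e : ∀ z : Ω × Ω, (((b⁻¹ : ℝ) : ℂ) * F z.1) * conj (((b⁻¹ : ℝ) : ℂ) * F z.2) =
        ((b⁻¹ : ℝ) : ℂ) ^ 2 * (F z.1 * conj (F z.2)) := by
      intro z
      rw [map_mul, Complex.conj_ofReal]
      ring
    simp only [e]
    rw [integral_const_mul, norm_mul, norm_pow, nb]
  have key := corr_close (κ := κ) (hG.const_mul ((b⁻¹ : ℝ) : ℂ)) (hG'.const_mul ((b⁻¹ : ℝ) : ℂ))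
    (sc hb) (sc hb') (t := b⁻¹ * t) (by positivity) (dist _ h1) (dist _ h2)
  rw [corr, corr] at key
  have h3 := mul_le_mul_of_nonneg_left key (by positivity : (0 : ℝ) ≤ b ^ 2)
  have h4 : b ^ 2 * (b⁻¹ ^ 2 * ‖∫ z, G' z.1 * conj (G' z.2) ∂κ‖) =
      ‖∫ z, G' z.1 * conj (G' z.2) ∂κ‖ := by
    field_simp
  have h5 : b ^ 2 * (b⁻¹ ^ 2 * ‖∫ z, G z.1 * conj (G z.2) ∂κ‖ + 2 * (b⁻¹ * t)) =
      ‖∫ z, G z.1 * conj (G z.2) ∂κ‖ + 2 * b * t := by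
    field_simp
  rw [h4, h5] at h3
  exact h3

/-- **ZOK**. -/
theorem st_ZOK (zbk : ST_ZBK) : ST_ZOK := by
  intro Y _ _ _ _ ν _ S hS hU G b η m P₀ hGm hGb hη hm hcor
  obtain ⟨B, hB⟩ : ∃ B : ℝ, B = max b (max 1 η) := ⟨_, rfl⟩
  have hBb : b ≤ B := by rw [hB]; exact le_max_left _ _
  have hB1 : 1 ≤ B := by rw [hB]; exact (le_max_left _ _).trans (le_max_right _ _)
  have hBη : η ≤ B := by rw [hB]; exact (le_max_right _ _).trans (le_max_right _ _)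
  have hB0 : 0 < B := by linarith
  have hGB : ∀ y, ‖G y‖ ≤ B := fun y => (hGb y).trans hBb
  obtain ⟨η', hη'⟩ : ∃ η' : ℝ, η' = η / (2 * B) := ⟨_, rfl⟩
  have hη'0 : 0 < η' := by rw [hη']; positivity
  have hη'1 : η' ≤ 1 := by
    rw [hη', div_le_one (by positivity)]
    linarith
  obtain ⟨P₁, hP₁⟩ := zbk η' hη'0 hη'1 P₀
  obtain ⟨t, ht⟩ : ∃ t : ℝ, t = η ^ 2 / (200000 * B) := ⟨_, rfl⟩
  have ht0 : 0 < t := by rw [ht]; positivity
  have htB : 2 * B * t = η ^ 2 / 100000 := by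
    rw [ht]
    field_simp
    norm_num
  obtain ⟨ε₂, hε₂⟩ : ∃ ε₂ : ℝ, ε₂ = min ((η / 8) ^ 2) (t ^ 2 / (P₁ * m + 1)) := ⟨_, rfl⟩
  have hε₂0 : 0 < ε₂ := by rw [hε₂]; exact lt_min (by positivity) (by positivity)
  have hε₂1 : ε₂ ≤ (η / 8) ^ 2 := by rw [hε₂]; exact min_le_left _ _
  have hε₂2 : ε₂ * (P₁ * m + 1) ≤ t ^ 2 := by
    have h1 : ε₂ ≤ t ^ 2 / (P₁ * m + 1) := by rw [hε₂]; exact min_le_right _ _
    rwa [le_div_iff₀ (by positivity)] at h1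
  obtain ⟨G', hG'1, hGG'⟩ := Pool.Agent.Helper73.ZA.st_ZAP Y ν G B ε₂ hGm hGB hε₂0
  have hG'm : Measurable (G' : Y → ℂ) := G'.continuous.measurable
  have hdm : Measurable (fun x => G x - G' x) := hGm.sub hG'm
  have hdb : ∀ x, ‖G x - G' x‖ ≤ 2 * B := fun x => (norm_sub_le _ _).trans (by
    linarith [hGB x, hG'1 x])
  have hint : Integrable (fun x => ‖G x - G' x‖ ^ 2) ν :=
    Integrable.of_bound (hdm.norm.pow_const 2).aestronglyMeasurable ((2 * B) ^ 2)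
      (Eventually.of_forall fun x => by
        rw [norm_pow, norm_norm]
        exact pow_le_pow_left₀ (norm_nonneg _) (hdb x) 2)
  have hSi : ∀ i : ℕ, Measurable S^[i] := fun i => hS.measurable.iterate i
  have zac := Pool.Agent.Helper49.ZA.st_ZAC
  -- the correlations
  have hco : ∀ y : Y, ∀ p q : ℕ, p.Prime → q.Prime → p ≠ q → P₀ ≤ p → P₀ ≤ q → p ≤ P₁ →
      q ≤ P₁ → ∀ᶠ M : ℕ in atTop,
        ‖∑ n ∈ Icc 1 M, G' (S^[p * n] y) * conj (G' (S^[q * n] y))‖ ≤ (η ^ 2 / 16384) * M := by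
    intro y p q hp hq hpq hp0 hq0 hpP hqP
    have h1 := Pool.Agent.Helper34.ZA.st_ZCO Y S p q m G' (η ^ 2 / 40000 + η ^ 2 / 100000)
      (η ^ 2 / 100000) hS hm (by positivity) ?_ y
    · filter_upwards [h1] with M hM
      refine hM.trans (mul_le_mul_of_nonneg_right ?_ (Nat.cast_nonneg M))
      nlinarith [sq_nonneg η]
    intro κ hκ hκe
    have hpm : ∀ r : ℕ, r.Prime → 1 ≤ r * m := fun r hr => Nat.one_le_iff_ne_zero.2 (by
      have := hr.pos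
      positivity)
    have hbd : ∀ r : ℕ, r ≤ P₁ → ((r * m : ℕ) : ℝ) * ε₂ ≤ t ^ 2 := by
      intro r hr
      refine le_trans ?_ hε₂2
      rw [mul_comm]
      refine mul_le_mul_of_nonneg_left ?_ hε₂0.le
      push_cast
      have : (r : ℝ) ≤ P₁ := by exact_mod_cast hr
      nlinarith [(Nat.cast_nonneg m : (0 : ℝ) ≤ m)]
    have p1 : IsProbabilityMeasure (κ.map Prod.fst) :=
      Measure.isProbabilityMeasure_map measurable_fst.aemeasurable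
    have p2 : IsProbabilityMeasure (κ.map Prod.snd) :=
      Measure.isProbabilityMeasure_map measurable_snd.aemeasurable
    have a1 := (zac Y ν S hS.measurable hU).2 (p * m) (κ.map Prod.fst) (hpm p hp) p1
      (mp_fst (hSi _) hκe.toMeasurePreserving)
    have a2 := (zac Y ν S hS.measurable hU).2 (q * m) (κ.map Prod.snd) (hpm q hq) p2
      (mp_snd (hSi _) hκe.toMeasurePreserving)
    have b1 : ∫ x, ‖G x - G' x‖ ^ 2 ∂(κ.map Prod.fst) ≤ t ^ 2 := by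
      refine (int_le_of_le (fun x => by positivity) hint a1).trans ?_
      exact (mul_le_mul_of_nonneg_left hGG' (Nat.cast_nonneg _)).trans (hbd p hpP)
    have b2 : ∫ x, ‖G x - G' x‖ ^ 2 ∂(κ.map Prod.snd) ≤ t ^ 2 := by
      refine (int_le_of_le (fun x => by positivity) hint a2).trans ?_
      exact (mul_le_mul_of_nonneg_left hGG' (Nat.cast_nonneg _)).trans (hbd q hqP)
    have h2 := corr_close_b hGm hG'm hB0 hGB hG'1 ht0.le b1 b2
    have h3 := hcor p q hp hq hpq hp0 hq0 κ hκ hκe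
    rw [htB] at h2
    linarith
  have nB : ‖((B⁻¹ : ℝ) : ℂ)‖ = B⁻¹ := by
    rw [Complex.norm_real, Real.norm_of_nonneg (by positivity)]
  have hms : ∀ y : Y, ∀ᶠ N : ℕ in atTop, ‖MS (fun n => G' (S^[n] y)) N‖ ≤ (η / 2) * N := by
    intro y
    have h1 := hP₁ (fun n => ((B⁻¹ : ℝ) : ℂ) * G' (S^[n] y)) (fun n => by
      rw [norm_mul, nB, inv_mul_le_iff₀ hB0, mul_one]
      exact hG'1 _) (by
      intro p q hp hq hpq hp0 hq0 hpP hqP
      filter_upwards [hco y p q hp hq hpq hp0 hq0 hpP hqP] with M hM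
      have e : ∑ n ∈ Icc 1 M, (((B⁻¹ : ℝ) : ℂ) * G' (S^[p * n] y)) *
          conj (((B⁻¹ : ℝ) : ℂ) * G' (S^[q * n] y)) = ((B⁻¹ : ℝ) : ℂ) ^ 2 *
          ∑ n ∈ Icc 1 M, G' (S^[p * n] y) * conj (G' (S^[q * n] y)) := by
        rw [Finset.mul_sum]
        refine Finset.sum_congr rfl fun n _ => ?_
        rw [map_mul, Complex.conj_ofReal]
        ring
      rw [e, norm_mul, norm_pow, nB]
      have h2 := mul_le_mul_of_nonneg_left hM (by positivity : (0 : ℝ) ≤ B⁻¹ ^ 2)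
      refine h2.trans (le_of_eq ?_)
      rw [hη']
      field_simp
      ring)
    filter_upwards [h1] with N hN
    rw [ms_smul, norm_mul, nB, inv_mul_le_iff₀ hB0] at hN
    refine hN.trans (le_of_eq ?_)
    rw [hη']
    field_simp
  refine ⟨(η / 8) ^ 2, by positivity, fun H hH y => ?_⟩
  have mG : MemLp G 2 ν := MemLp.of_bound hGm.aestronglyMeasurable B
    (Eventually.of_forall hGB)
  have e1 : ∫ y, ‖H y - G' y‖ ^ 2 ∂ν ≤ (η / 8 + η / 8) ^ 2 :=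
    l2_tri (memLp_cont H) mG (memLp_cont G') (by positivity) (by positivity) hH
      (hGG'.trans hε₂1)
  exact comp hS hU H G' (by positivity) e1 y (hms y) (by linarith)

end Pool.Agent.Helper34.ZB
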