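import Pool.Agent.Helper98.ZB.Stmts

/-!
Row ZWU of the sheet ZB (MP_7a8f48_an): the unitary operator `b ↦ φ* (b ∘ R)` of a unitary cocycle.
-/

set_option linter.unusedSectionVars false

open MeasureTheory Filter Topology Finset
open scoped ComplexConjugate ENNReal

namespace Pool.Agent.Helper34.ZB

open Pool.Agent.Helper98.TW (Sys)
open Pool.Agent.Helper98.ZB (ST_ZWU)
open Pool.Agent.Helper16.AZ (E Op unitary_norm unitary_star)
open Pool.Agent.Helper16.BZ (Wk co)

section tw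

variable {Ω : Type} [MeasurableSpace Ω] {μ : Measure Ω} {d : ℕ} {T : Ω → Ω} {ψ : Ω → Op d}

theorem tw_mem (hT : MeasurePreserving T μ μ) (hψ : StronglyMeasurable ψ)
    (hn : ∀ x v, ‖ψ x v‖ = ‖v‖) {f : Ω → E d} (hf : MemLp f 2 μ) :
    MemLp (fun x => ψ x (f (T x))) 2 μ := by
  have h1 : MemLp (fun x => f (T x)) 2 μ := hf.comp_measurePreserving hT
  refine h1.of_le ?_ (Eventually.of_forall fun x => (hn x _).le)
  exact (isBoundedBilinearMap_apply (𝕜 := ℂ) (E := E d) (F := E d)).continuous.comp_aestronglyMeasurable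
    (hψ.aestronglyMeasurable.prodMk h1.1)

/-- the isometry `f ↦ ψ (f ∘ T)` -/
noncomputable def twL (hT : MeasurePreserving T μ μ) (hψ : StronglyMeasurable ψ)
    (hn : ∀ x v, ‖ψ x v‖ = ‖v‖) : Lp (E d) 2 μ →ₗᵢ[ℂ] Lp (E d) 2 μ where
  toFun f := (tw_mem hT hψ hn (Lp.memLp f)).toLp _
  map_add' f g := by
    have h1 : ∀ᵐ x ∂μ, (f + g : Lp (E d) 2 μ) (T x) = f (T x) + g (T x) :=
      hT.quasiMeasurePreserving.ae (Lp.coeFn_add f g)
    rw [← MemLp.toLp_add]
    apply (MemLp.toLp_eq_toLp_iff _ _).2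
    filter_upwards [h1] with x hx
    rw [hx, map_add]
    rfl
  map_smul' c f := by
    have h1 : ∀ᵐ x ∂μ, (c • f : Lp (E d) 2 μ) (T x) = c • f (T x) :=
      hT.quasiMeasurePreserving.ae (Lp.coeFn_smul c f)
    rw [RingHom.id_apply, ← MemLp.toLp_const_smul]
    apply (MemLp.toLp_eq_toLp_iff _ _).2
    filter_upwards [h1] with x hx
    rw [hx, map_smul]
    rfl
  norm_map' f := by
    show ‖(tw_mem hT hψ hn (Lp.memLp f)).toLp _‖ = ‖f‖
    rw [Lp.norm_toLp, Lp.norm_def]
    congr 1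
    rw [eLpNorm_congr_norm_ae (g := fun x => f (T x)) (Eventually.of_forall fun x => hn x _)]
    exact eLpNorm_comp_measurePreserving (Lp.memLp f).1 hT

theorem twL_ae (hT : MeasurePreserving T μ μ) (hψ : StronglyMeasurable ψ)
    (hn : ∀ x v, ‖ψ x v‖ = ‖v‖) (f : Lp (E d) 2 μ) {c : Ω → E d} (h : ∀ᵐ x ∂μ, f x = c x) :
    ∀ᵐ x ∂μ, twL hT hψ hn f x = ψ x (c (T x)) := by
  have h1 : ∀ᵐ x ∂μ, f (T x) = c (T x) := hT.quasiMeasurePreserving.ae h
  have h2 := MemLp.coeFn_toLp (tw_mem hT hψ hn (Lp.memLp f))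
  filter_upwards [h1, h2] with x hx1 hx2
  rw [← hx1]
  exact hx2

end tw

/-- **ZWU**. -/
theorem st_ZWU : ST_ZWU := by
  intro Ω _ μ _ R R' d φ hR hφ hu
  have hs : StronglyMeasurable (fun x => star (φ x)) := by
    have h1 : Continuous fun A : Op d => star A := by
      simp only [ContinuousLinearMap.star_eq_adjoint]
      exact (ContinuousLinearMap.adjoint (𝕜 := ℂ) (E := E d) (F := E d)).continuous
    exact h1.comp_stronglyMeasurable hφ
  have hs' : StronglyMeasurable (fun x => φ (R' x)) := hφ.comp_measurable hR.mp'.measurable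
  have hn : ∀ (x : Ω) (v : E d), ‖star (φ x) v‖ = ‖v‖ := fun x v =>
    unitary_norm (unitary_star (hu x)) v
  have hn' : ∀ (x : Ω) (v : E d), ‖φ (R' x) v‖ = ‖v‖ := fun x v => unitary_norm (hu _) v
  have hsurj : Function.Surjective (twL hR.mp hs hn) := by
    intro g
    refine ⟨twL hR.mp' hs' hn' g, ?_⟩
    have h1 := twL_ae hR.mp' hs' hn' g (c := g) (Eventually.of_forall fun _ => rfl)
    have h2 := twL_ae hR.mp hs hn (twL hR.mp' hs' hn' g) h1
    apply Lp.ext
    filter_upwards [h2, hR.l] with x hx1 hx2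
    rw [hx1, hx2]
    have h3 : star (φ x) (φ x (g x)) = (star (φ x) * φ x) (g x) := rfl
    rw [h3, (Unitary.mem_iff.1 (hu x)).1]
    rfl
  set e : Lp (E d) 2 μ ≃ₗᵢ[ℂ] Lp (E d) 2 μ :=
    LinearIsometryEquiv.ofSurjective (twL hR.mp hs hn) hsurj with he
  set W : Lp (E d) 2 μ →L[ℂ] Lp (E d) 2 μ := (e : Lp (E d) 2 μ →L[ℂ] Lp (E d) 2 μ) with hW
  have hWe : ∀ f, W f = twL hR.mp hs hn f := fun f => rfl
  refine ⟨W, ?_, ?_⟩
  · have h1 := (Unitary.linearIsometryEquiv.symm e).2
    rwa [Unitary.coe_symm_linearIsometryEquiv_apply] at h1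
  · intro c f hf k
    induction k generalizing c f with
    | zero =>
      filter_upwards [hf] with x hx
      rw [pow_zero]
      show f x = star (co R φ 0 x) (c x)
      rw [hx]
      show c x = star (1 : Op d) (c x)
      rw [star_one]
      rfl
    | succ k ih =>
      have h1 : ∀ᵐ x ∂μ, (W f) x = star (φ x) (c (R x)) := by
        rw [hWe]
        exact twL_ae hR.mp hs hn f hf
      filter_upwards [ih _ _ h1] with x hx
      have h2 : (W ^ (k + 1)) f = (W ^ k) (W f) := by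
        rw [pow_succ]
        rfl
      rw [h2, hx]
      show star (co R φ k x) (star (φ (R^[k] x)) (c (R (R^[k] x)))) =
        star (φ (R^[k] x) * co R φ k x) (c (R^[k + 1] x))
      rw [star_mul, Function.iterate_succ_apply']
      rfl

end Pool.Agent.Helper34.ZB
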